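import Pool.Agent.N103.OC.Defs

/-!
# Direct summands of a motive which satisfy the Kunneth standard conjecture
-/

open CategoryTheory AlgebraicGeometry Filter

set_option autoImplicit false

universe u v

namespace Pool.Agent.Run7.H98.CX

open Pool.Agent.H914 VarClass Obj WeilCohomology Pool.Agent.N103.OC

/-- `e` is an idempotent linear combination of the operators in `S`, and for all `i` the component
of `e` in the degree `i` (the operator which is `e` on `gr i` and zero on `gr j` for `j ≠ i`) is a
linear combination of the operators in `S`. -/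
def KunnethSummand {K : Type*} {V : Type*} [Field K] [AddCommGroup V] [Module K V]
    (gr : ℕ → Submodule K V) (S : Set (V →ₗ[K] V)) (e : Module.End K V) : Prop :=
  e ∈ Submodule.span K S ∧ e * e = e ∧
    ∀ i, ∃ p ∈ Submodule.span K S, ∀ j, ∀ x ∈ gr j, p x = if j = i then e x else 0

variable {k : Type u} [Field k] {𝒱 : VarClass k} {ops : CycleOps 𝒱}

/-- The operators on the cohomology of `Y` induced by the cycles of codimension `dim Y` on
`Y × Y` (with rational coefficients). -/
def cycleOps (W : WeilCohomology.{u, v} ops) (Y : 𝒱.Obj) : Set (W.H Y →ₗ[W.K] W.H Y) :=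
  {φ | ∃ z, (Y.prod Y).IsCyc Y.dim z ∧ W.corr (W.cl (Y.prod Y) z) = φ}

/-- `b(Y)`, the sum of the Betti numbers of `Y`. -/
noncomputable def cohDim (W : WeilCohomology.{u, v} ops) (Y : 𝒱.Obj) : ℕ :=
  Module.finrank W.K (W.H Y)

/-- `c(Y)`, the largest rank of a direct summand `(Y, e)` of the motive of `Y` (modulo homological
equivalence, with coefficients in `K`) for which the Kunneth standard conjecture is true. -/
noncomputable def kunnethDim (W : WeilCohomology.{u, v} ops) (Y : 𝒱.Obj) : ℕ :=
  sSup {r | ∃ e : Module.End W.K (W.H Y), KunnethSummand (W.gr Y) (cycleOps W Y) e ∧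
    r = Module.finrank W.K (LinearMap.range e)}

/-- A positive function which decreases more slowly than `1 / √(log y)`. -/
def IsSlow (f : ℝ → ℝ) : Prop :=
  (∀ y, 1 ≤ y → 0 < f y) ∧ Tendsto (fun y => f y * √(Real.log y)) atTop atTop

/-- If the Kunneth standard conjecture is false for `X` then
`c(X^n) ≤ b(X)^n √(b(X) / (2 (n + 1)))` for all `n ≥ 1`. -/
def BoundLaw (W : WeilCohomology.{u, v} ops) : Prop :=
  ∀ X : 𝒱.Obj, ¬ AllSpan W X → ∀ n ≥ 1,
    2 * (n + 1) * kunnethDim W (pw X n) ^ 2 ≤ cohDim W X ^ (2 * n + 1)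

/-- The Kunneth standard conjecture is true for `X` if and only if there is `ε > 0` such that
`c(X^n) ≥ ε b(X^n)` for infinitely many `n`. -/
def ShareLaw (W : WeilCohomology.{u, v} ops) : Prop :=
  ∀ X : 𝒱.Obj, AllSpan W X ↔ ∃ ε : ℝ, 0 < ε ∧
    ∃ᶠ n in atTop, ε * cohDim W (pw X n) ≤ kunnethDim W (pw X n)

/-- The Kunneth standard conjecture is true for all varieties if and only if there is a slow
function `f` such that `c(Y) ≥ f(b(Y)) b(Y)` for all `Y`. -/
def AllLaw (W : WeilCohomology.{u, v} ops) : Prop :=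
  (∀ X : 𝒱.Obj, AllSpan W X) ↔
    ∃ f, IsSlow f ∧ ∀ Y : 𝒱.Obj, f (cohDim W Y) * cohDim W Y ≤ kunnethDim W Y

end Pool.Agent.Run7.H98.CX
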