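import Pool.Agent.Run7.h634.WZ.Eig

/-!
# The eigenvalues of `f ⊗ 1 + 1 ⊗ g`
-/

set_option autoImplicit false

open Module TensorProduct

namespace Pool.Agent.Run7.H98.CX

open Pool.Agent.Run7.H634.WZ

section closed

variable {L V W : Type*} [Field L] [AddCommGroup V] [Module L V] [AddCommGroup W] [Module L W]

/-- The tensor product of generalized eigenvectors. -/
theorem tmul_mem_gen_add (f : End L V) (g : End L W) {a c : L} {v : V} {w : W}
    (hv : v ∈ f.maxGenEigenspace a) (hw : w ∈ g.maxGenEigenspace c) :
    v ⊗ₜ[L] w ∈ Module.End.maxGenEigenspace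
      (TensorProduct.map f (1 : End L W) + TensorProduct.map (1 : End L V) g) (a + c) := by
  rw [End.mem_maxGenEigenspace] at hv hw ⊢
  obtain ⟨m, hm⟩ := hv
  obtain ⟨n, hn⟩ := hw
  let A : End L (V ⊗[L] W) := TensorProduct.map (f - a • 1) (1 : End L W)
  let B : End L (V ⊗[L] W) := TensorProduct.map (1 : End L V) (g - c • 1)
  have hAB : (TensorProduct.map f (1 : End L W) + TensorProduct.map (1 : End L V) g :
      End L (V ⊗[L] W)) - (a + c) • 1 = A + B := by
    apply TensorProduct.ext'
    intro x y
    show f x ⊗ₜ[L] y + x ⊗ₜ[L] g y - (a + c) • (x ⊗ₜ[L] y) =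
      (f x - a • x) ⊗ₜ[L] y + x ⊗ₜ[L] (g y - c • y)
    rw [TensorProduct.sub_tmul, TensorProduct.tmul_sub, TensorProduct.tmul_smul,
      TensorProduct.smul_tmul', add_smul, TensorProduct.add_tmul, ← TensorProduct.smul_tmul' c]
    abel
  have hA : ∀ (i : ℕ) (x : V) (y : W), (A ^ i) (x ⊗ₜ y) =
      (((f - a • 1) ^ i) x) ⊗ₜ y := by
    intro i
    induction i with
    | zero => intro x y; rfl
    | succ i ih =>
      intro x y
      rw [pow_succ, pow_succ]
      exact ih _ _
  have hB : ∀ (i : ℕ) (x : V) (y : W), (B ^ i) (x ⊗ₜ y) =
      x ⊗ₜ (((g - c • 1) ^ i) y) := by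
    intro i
    induction i with
    | zero => intro x y; rfl
    | succ i ih =>
      intro x y
      rw [pow_succ, pow_succ]
      exact ih _ _
  have hcomm : Commute A B := by
    show A * B = B * A
    apply TensorProduct.ext'
    intro x y
    rfl
  refine ⟨m + n, ?_⟩
  rw [hAB, hcomm.add_pow, LinearMap.sum_apply]
  apply Finset.sum_eq_zero
  intro i hi
  rw [Finset.mem_range] at hi
  rw [(Nat.cast_commute _ _).symm.eq]
  rcases le_total m i with h | h
  · have h3 : (A ^ i) (v ⊗ₜ w) = 0 := by
      rw [hA, show i = (i - m) + m by omega, pow_add]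
      show (((f - a • 1) ^ (i - m)) (((f - a • 1) ^ m) v)) ⊗ₜ _ = _
      rw [hm, map_zero, TensorProduct.zero_tmul]
    rw [(hcomm.pow_pow i (m + n - i)).eq, Module.End.mul_apply, Module.End.mul_apply, h3,
      map_zero, map_zero]
  · have h3 : (B ^ (m + n - i)) (v ⊗ₜ w) = 0 := by
      rw [hB, show m + n - i = (m - i) + n by omega, pow_add]
      show _ ⊗ₜ (((g - c • 1) ^ (m - i)) (((g - c • 1) ^ n) w)) = _
      rw [hn, map_zero, TensorProduct.tmul_zero]
    rw [Module.End.mul_apply, Module.End.mul_apply, h3, map_zero, map_zero]

/-- The eigenvalues over an algebraically closed field. -/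
theorem roots_add_closed [FiniteDimensional L V] [FiniteDimensional L W] [IsAlgClosed L]
    (f : End L V) (g : End L W) :
    ((TensorProduct.map f (1 : End L W) + TensorProduct.map (1 : End L V) g :
      End L (V ⊗[L] W)).charpoly.roots).map Multiplicative.ofAdd =
      mulM (f.charpoly.roots.map Multiplicative.ofAdd)
        (g.charpoly.roots.map Multiplicative.ofAdd) := by
  obtain ⟨b, l, hb⟩ := exists_gen_basis f
  obtain ⟨c, k, hc⟩ := exists_gen_basis g
  rw [roots_of_basis _ b l hb, roots_of_basis _ c k hc,
    roots_of_basis _ (b.tensorProduct c) (fun i => l i.1 + k i.2)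
      (fun i => by
        rw [Basis.tensorProduct_apply']
        exact tmul_mem_gen_add _ _ (hb i.1) (hc i.2))]
  rw [mulM, ← Finset.univ_product_univ, Finset.product_val, Multiset.map_map, Multiset.map_map,
    Multiset.map_map, map_product_map, Multiset.map_map]
  rfl

end closed

section
variable {K L V W : Type*} [Field K] [Field L] [Algebra K L] [IsAlgClosed L]
  [AddCommGroup V] [Module K V] [FiniteDimensional K V]
  [AddCommGroup W] [Module K W] [FiniteDimensional K W]

/-- The eigenvalues in `L`, with multiplicities, as elements of a multiplicative group. -/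
noncomputable def eigM (L : Type*) [Field L] [Algebra K L] (f : End K V) :
    Multiset (Multiplicative L) := (f.charpoly.aroots L).map Multiplicative.ofAdd

omit [IsAlgClosed L] in
theorem eigM_eq (f : End K V) : eigM L f =
    (f.baseChange L).charpoly.roots.map Multiplicative.ofAdd := by
  rw [eigM, LinearMap.charpoly_baseChange]

theorem card_eigM (f : End K V) : (eigM L f).card = finrank K V := by
  rw [eigM, Multiset.card_map, IsAlgClosed.card_aroots_eq_natDegree, LinearMap.charpoly_natDegree]

/-- Conjugation of the base change of a tensor product of maps. -/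
theorem conj_map (f : End K V) (g : End K W) :
    (TensorProduct.AlgebraTensorModule.distribBaseChange K L V W).conj
      ((TensorProduct.map f g).baseChange L) =
      TensorProduct.map (f.baseChange L) (g.baseChange L) := by
  apply LinearMap.ext
  intro x
  rw [LinearEquiv.conj_apply_apply]
  show TensorProduct.AlgebraTensorModule.distribBaseChange K L V W
    ((TensorProduct.map f g).baseChange L
      ((TensorProduct.AlgebraTensorModule.distribBaseChange K L V W).symm x)) = _
  induction x using TensorProduct.induction_on with
  | zero => simp only [map_zero]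
  | add x y hx hy => simp only [map_add, hx, hy]
  | tmul x y =>
    induction x using TensorProduct.induction_on with
    | zero => simp only [TensorProduct.zero_tmul, map_zero]
    | add x x' hx hx' => simp only [TensorProduct.add_tmul, map_add, hx, hx']
    | tmul a v =>
      induction y using TensorProduct.induction_on with
      | zero => simp only [TensorProduct.tmul_zero, map_zero]
      | add y y' hy hy' => simp only [TensorProduct.tmul_add, map_add, hy, hy']
      | tmul c w =>
        rw [TensorProduct.AlgebraTensorModule.distribBaseChange_symm_tmul,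
          LinearMap.baseChange_tmul, TensorProduct.map_tmul,
          TensorProduct.AlgebraTensorModule.distribBaseChange_tmul, TensorProduct.map_tmul,
          LinearMap.baseChange_tmul, LinearMap.baseChange_tmul]
        have h1 : (a * c) ⊗ₜ[K] f v = c • (a ⊗ₜ[K] f v) := by
          rw [TensorProduct.smul_tmul', smul_eq_mul, mul_comm]
        have h2 : c ⊗ₜ[K] g w = c • ((1 : L) ⊗ₜ[K] g w) := by
          rw [TensorProduct.smul_tmul', smul_eq_mul, mul_one]
        rw [h1, h2, TensorProduct.smul_tmul]

omit [FiniteDimensional K V] in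
theorem baseChange_one' : (1 : End K V).baseChange L = 1 := LinearMap.baseChange_id

/-- **The eigenvalues of `f ⊗ 1 + 1 ⊗ g`.** -/
theorem eigM_tensor (f : End K V) (g : End K W) :
    eigM L (TensorProduct.map f (1 : End K W) + TensorProduct.map (1 : End K V) g) =
      mulM (eigM L f) (eigM L g) := by
  rw [eigM_eq, eigM_eq, eigM_eq, ← roots_add_closed,
    ← LinearEquiv.charpoly_conj (M₁ := L ⊗[K] (V ⊗[K] W))
      (M₂ := (L ⊗[K] V) ⊗[L] (L ⊗[K] W))
      (TensorProduct.AlgebraTensorModule.distribBaseChange K L V W)]
  congr 3
  rw [LinearMap.baseChange_add, map_add, conj_map, conj_map, baseChange_one', baseChange_one']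

omit [IsAlgClosed L] in
/-- The multiplicity of the eigenvalue zero. -/
theorem finrank_gen_zero (f : End K V) :
    finrank K (f.maxGenEigenspace 0) ≤ (P (eigM L f)).coeff 1 := by
  classical
  rw [P_apply, eigM, ← ofAdd_zero, Multiset.count_map_eq_count' _ _ Multiplicative.ofAdd.injective,
    Polynomial.count_roots, LinearMap.finrank_maxGenEigenspace_eq]
  have h := Polynomial.le_rootMultiplicity_map (p := f.charpoly) (f := algebraMap K L)
    ((Polynomial.map_ne_zero_iff (algebraMap K L).injective).2 (LinearMap.charpoly_monic f).ne_zero)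
    0
  rwa [map_zero] at h

end

end Pool.Agent.Run7.H98.CX
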