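import Pool.Agent.Run7.h98.CX.Lin
import Pool.Agent.Run7.h98.CX.Eig
import Pool.Agent.Run7.h98.CX.Defs
import Pool.Agent.N103.OC.Final

/-!
# The degree operator on the cohomology of the powers of a variety
-/

set_option autoImplicit false

open CategoryTheory AlgebraicGeometry Finset TensorProduct Module

universe u v

namespace Pool.Agent.Run7.H98.CX

open Pool.Agent.H914 VarClass Obj WeilCohomology Pool.Agent.N190.CB Pool.Agent.N103.OC
  Pool.Agent.N536.HK Pool.Agent.Run7.H634.WZ

variable {k : Type u} [Field k] {𝒱 : VarClass k} {ops : CycleOps 𝒱}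
  {W : WeilCohomology.{u, v} ops} {X Y Z : 𝒱.Obj}

lemma kop_gr {a : Module.End W.K (W.H X)} (ha : a ∈ KOp W X X 0) (i : ℕ) {y : W.H X}
    (hy : y ∈ W.gr X i) : a y ∈ W.gr X i := by
  have := KOp.isHom ha i y (by rw [grZ_natCast]; exact hy)
  rwa [mul_zero, add_zero, grZ_natCast] at this

lemma kop_mul {f g : Module.End W.K (W.H X)} (hf : f ∈ KOp W X X 0) (hg : g ∈ KOp W X X 0) :
    f * g ∈ KOp W X X 0 := KOp.cast (KOp.comp hf hg) (by ring)

lemma kop_one (X : 𝒱.Obj) : (1 : Module.End W.K (W.H X)) ∈ KOp W X X 0 := KOp.id X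

lemma kop_ext {φ : Module.End W.K (W.H Y)} {ψ : Module.End W.K (W.H Z)}
    (hφ : φ ∈ KOp W Y Y 0) (hψ : ψ ∈ KOp W Z Z 0) :
    extOp W φ ψ ∈ KOp W (Y.prod Z) (Y.prod Z) 0 := KOp.cast (KOp.ext hφ hψ) (by ring)

/-- The operator acting by `c i` in the degree `i`. -/
noncomputable abbrev sc (W : WeilCohomology.{u, v} ops) (X : 𝒱.Obj) (c : ℕ → W.K) :
    Module.End W.K (W.H X) := scal (W.isInternal X) c

lemma sc_comm (c : ℕ → W.K) {a : Module.End W.K (W.H X)} (ha : a ∈ KOp W X X 0) :
    sc W X c * a = a * sc W X c := by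
  apply gr_ext (W.isInternal X)
  intro i x hx
  rw [Module.End.mul_apply, Module.End.mul_apply, scal_apply _ _ hx,
    scal_apply _ _ (kop_gr ha i hx), map_smul]

lemma sc_sc (c d : ℕ → W.K) : sc W X c * sc W X d = sc W X d * sc W X c := by
  rw [scal_mul, scal_mul]
  congr 1
  funext i
  exact mul_comm _ _

/-- The degree operator. -/
noncomputable abbrev dg (W : WeilCohomology.{u, v} ops) (X : 𝒱.Obj) : Module.End W.K (W.H X) :=
  sc W X fun i => (i : W.K)

/-- The degree is additive. -/
lemma dg_prod : dg W (X.prod Z) = extOp W (dg W X) 1 + extOp W 1 (dg W Z) := by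
  apply op_ext
  intro i j a ha b hb
  rw [scal_apply_ext _ ha hb, LinearMap.add_apply, extOp_tmul, extOp_tmul, scal_apply _ _ ha,
    scal_apply _ _ hb, map_smul, map_smul, smul_mul_assoc, mul_smul_comm,
    Module.End.one_apply, Module.End.one_apply, ← add_smul, Nat.cast_add]

/-- The component of the middle degree of a class on `X × X`. -/
lemma proj_corr (f : W.H (X.prod X)) {i : ℕ} {x : W.H X} (hx : x ∈ W.gr X i) :
    proj (W.isInternal X) i (W.corr f x) =
      W.corr (proj (W.isInternal (X.prod X)) (2 * X.dim) f) x := by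
  refine gr_induction (W.isInternal (X.prod X)) (p := fun f =>
    proj (W.isInternal X) i (W.corr f x) =
      W.corr (proj (W.isInternal (X.prod X)) (2 * X.dim) f) x) ?_ ?_ f
  · intro j f hf
    have h1 := W.push_mem (snd X X) (W.mul_mem hf (W.map_mem (fst X X) hx))
    rw [← corr_apply] at h1
    have hdim : ((X.prod X).dim : ℤ) = X.dim + X.dim := by rw [dim_prod]; push_cast; ring
    by_cases hj : j = 2 * X.dim
    · subst hj
      rw [proj_same _ hf]
      apply proj_same
      rwa [show ((2 * X.dim + i : ℕ) : ℤ) + 2 * ((X.dim : ℤ) - (X.prod X).dim) = (i : ℤ) by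
        rw [hdim]; push_cast; ring, grZ_natCast] at h1
    · rw [proj_ne _ hf hj, corr_zero, LinearMap.zero_apply]
      by_cases hneg : ((j + i : ℕ) : ℤ) + 2 * ((X.dim : ℤ) - (X.prod X).dim) < 0
      · rw [grZ_of_neg hneg, Submodule.mem_bot] at h1
        rw [h1, map_zero]
      · obtain ⟨l, hl⟩ := Int.eq_ofNat_of_zero_le (not_lt.1 hneg)
        rw [hl, grZ_natCast] at h1
        apply proj_ne _ h1
        rintro rfl
        rw [hdim] at hl
        push_cast at hl
        omega
  · intro f g hf hg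
    rw [W.corr_add, LinearMap.add_apply, map_add, hf, hg, map_add, W.corr_add,
      LinearMap.add_apply]

/-- An operator which preserves the degree is induced by a class of the middle degree. -/
lemma exists_class {F : Module.End W.K (W.H X)} (hF : ∀ i, ∀ x ∈ W.gr X i, F x ∈ W.gr X i) :
    ∃ g ∈ W.gr (X.prod X) (2 * X.dim), W.corr g = F := by
  obtain ⟨f, hf⟩ := corr_bijective.2 F
  have hf' : W.corr f = F := hf
  refine ⟨proj (W.isInternal (X.prod X)) (2 * X.dim) f, proj_mem _ _ _, ?_⟩
  apply gr_ext (W.isInternal X)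
  intro i x hx
  rw [← proj_corr f hx, hf', proj_same _ (hF i x hx)]

lemma sc_gr (c : ℕ → W.K) (i : ℕ) {x : W.H X} (hx : x ∈ W.gr X i) : sc W X c x ∈ W.gr X i := by
  rw [scal_apply _ _ hx]
  exact Submodule.smul_mem _ _ hx

/-- The partial supertrace over the second factor. -/
lemma ptrace2 {A : Module.End W.K (W.H (Y.prod X))} (hA : A ∈ KOp W (Y.prod X) (Y.prod X) 0) :
    ∃ T ∈ KOp W Y Y 0, ∀ F : Module.End W.K (W.H Y),
      str W (Y.prod X) (A * extOp W F 1) = str W Y (T * F) := by
  obtain ⟨T, hT, h1⟩ := exists_ptrace hA (kop_one (W := W) X)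
  refine ⟨T, KOp.cast hT (by ring), fun F => ?_⟩
  obtain ⟨f, hf⟩ := corr_bijective.2 F
  have hf' : W.corr f = F := hf
  rw [← hf']
  exact h1 f

/-- The partial supertrace over the first factor. -/
lemma ptrace1 {A : Module.End W.K (W.H (Y.prod X))} (hA : A ∈ KOp W (Y.prod X) (Y.prod X) 0)
    {φ : Module.End W.K (W.H Y)} (hφ : φ ∈ KOp W Y Y 0) :
    ∃ T ∈ KOp W X X 0, ∀ F : Module.End W.K (W.H X), (∀ i, ∀ x ∈ W.gr X i, F x ∈ W.gr X i) →
      str W (Y.prod X) (A * extOp W φ F) = str W X (T * F) := by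
  obtain ⟨T, hT, h1⟩ := exists_ptrace' hA hφ
  refine ⟨T, KOp.cast hT (by ring), fun F hF => ?_⟩
  obtain ⟨g, hg, rfl⟩ := exists_class hF
  exact h1 hg

/-- The combinations of correspondences whose Kunneth components are combinations of
correspondences. -/
noncomputable def KP (W : WeilCohomology.{u, v} ops) (X : 𝒱.Obj) :
    Submodule W.K (Module.End W.K (W.H X)) where
  carrier := {a | ∀ c : ℕ → W.K, sc W X c * a ∈ KOp W X X 0}
  zero_mem' := fun c => by rw [mul_zero]; exact Submodule.zero_mem _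
  add_mem' := fun {a b} ha hb c => by rw [mul_add]; exact Submodule.add_mem _ (ha c) (hb c)
  smul_mem' := fun r a ha c => by rw [mul_smul_comm]; exact Submodule.smul_mem _ _ (ha c)

lemma kp_kop {a : Module.End W.K (W.H X)} (ha : a ∈ KP W X) : a ∈ KOp W X X 0 := by
  have h1 : sc W X (fun _ => (1 : W.K)) = 1 := scal_one _
  have h2 := ha fun _ => 1
  rwa [h1, one_mul] at h2

lemma kp_mul {a b : Module.End W.K (W.H X)} (ha : a ∈ KP W X) (hb : b ∈ KOp W X X 0) :
    a * b ∈ KP W X := fun c => by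
  rw [← mul_assoc]
  exact kop_mul (ha c) hb

lemma kp_mul_sc {a : Module.End W.K (W.H X)} (ha : a ∈ KP W X) (d : ℕ → W.K) :
    a * sc W X d ∈ KP W X := fun c => by
  rw [← sc_comm d (kp_kop ha), ← mul_assoc, scal_mul]
  exact ha _

/-- The trace of an operator times an element of `KP` is the supertrace of the operator times a
combination of correspondences. -/
lemma trace_eq_str {D a : Module.End W.K (W.H X)} (ha : a ∈ KP W X)
    (hD : ∀ x ∈ KOp W X X 0, str W X (x * D) = 0) : LinearMap.trace W.K (W.H X) (D * a) = 0 := by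
  have h1 : par (W.isInternal X) * a ∈ KOp W X X 0 := ha _
  have h2 := hD _ h1
  rw [str_apply, ← mul_assoc, ← mul_assoc, par_mul_par, one_mul] at h2
  rwa [LinearMap.trace_mul_comm]

lemma str_kop_comm {a b : Module.End W.K (W.H X)} (ha : a ∈ KOp W X X 0) :
    str W X (a * b) = str W X (b * a) := by
  rw [str_apply, str_apply, ← mul_assoc, LinearMap.trace_mul_comm (R := W.K) (M := W.H X) _ b,
    ← mul_assoc]
  have h1 : par (W.isInternal X) * a = a * par (W.isInternal X) := sc_comm _ ha
  rw [mul_assoc, h1, ← mul_assoc, LinearMap.trace_mul_comm, ← mul_assoc]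

/-! ### A correspondence in the place of the degree operator -/

/-- If no idempotent is orthogonal to all correspondences, then there is a combination of
correspondences with the same supertraces as the degree operator. -/
lemma exists_C (h : ∀ z ∈ KOp W X X 0, z * z = z → (∀ c ∈ KOp W X X 0, str W X (z * c) = 0) →
    z = 0) : ∃ C ∈ KOp W X X 0, ∀ x ∈ KOp W X X 0, str W X (x * C) = str W X (x * dg W X) := by
  obtain ⟨C, hC, h1⟩ := exists_rep (KOp W X X 0) (str W X)
    (str W X ∘ₗ LinearMap.mulRight W.K (dg W X)) (fun x hx hx' => by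
      have h1 := nilpotent_of_no_idem (KOp W X X 0) (fun a ha b hb => kop_mul ha hb) (str W X) h
        hx hx'
      obtain ⟨r, hr⟩ := h1
      have h2 : Commute (par (W.isInternal X) * dg W X) x := by
        show par (W.isInternal X) * dg W X * x = x * (par (W.isInternal X) * dg W X)
        have h3 : par (W.isInternal X) * x = x * par (W.isInternal X) := sc_comm _ hx
        rw [mul_assoc, sc_comm _ hx, ← mul_assoc, h3, mul_assoc]
      have h3 : IsNilpotent (par (W.isInternal X) * dg W X * x) :=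
        ⟨r, by rw [h2.mul_pow, hr, mul_zero]⟩
      have h4 := LinearMap.isNilpotent_trace_of_isNilpotent h3
      show LinearMap.trace W.K (W.H X) (par (W.isInternal X) * (x * dg W X)) = 0
      rw [← sc_comm _ hx, ← mul_assoc]
      exact h4.eq_zero)
  exact ⟨C, hC, h1⟩

section delta

variable {C : Module.End W.K (W.H X)}

/-- The difference of the degree operator and `C`, extended to the powers as a derivation;
`dl n` is an operator on the cohomology of `X ^ (n + 1)`. -/
noncomputable def dl (W : WeilCohomology.{u, v} ops) {X : 𝒱.Obj} (δ : Module.End W.K (W.H X)) :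
    ∀ n : ℕ, Module.End W.K (W.H (pw X (n + 1)))
  | 0 => δ
  | n + 1 => extOp W (Y := pw X (n + 1)) (Z := X) (dl W δ n) 1 +
      extOp W (Y := pw X (n + 1)) (Z := X) 1 δ

lemma dl_step {CY : Module.End W.K (W.H Y)} :
    extOp W (dg W Y - CY) 1 + extOp W 1 (dg W X - C) =
      dg W (Y.prod X) - (extOp W CY 1 + extOp W 1 C) := by
  have h3 : extOp W (dg W Y) (1 : Module.End W.K (W.H X)) =
      extOp W (dg W Y - CY) 1 + extOp W CY 1 := by
    rw [← extOp_add_left, sub_add_cancel]
  have h4 : extOp W (1 : Module.End W.K (W.H Y)) (dg W X) =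
      extOp W 1 (dg W X - C) + extOp W 1 C := by
    rw [← extOp_add_right, sub_add_cancel]
  rw [dg_prod, h3, h4]
  abel

/-- The operator `dl n` is the difference of the degree operator and a combination of
correspondences. -/
lemma dl_eq (hC : C ∈ KOp W X X 0) (n : ℕ) :
    ∃ Cn ∈ KOp W (pw X (n + 1)) (pw X (n + 1)) 0,
      dl W (dg W X - C) n = dg W (pw X (n + 1)) - Cn := by
  induction n with
  | zero => exact ⟨C, hC, rfl⟩
  | succ n ih =>
    obtain ⟨Cn, hCn, h1⟩ := ih
    refine ⟨extOp W (Y := pw X (n + 1)) (Z := X) Cn 1 + extOp W (Y := pw X (n + 1)) (Z := X) 1 C,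
      Submodule.add_mem _ (kop_ext hCn (kop_one X)) (kop_ext (kop_one _) hC), ?_⟩
    rw [dl, h1]
    exact dl_step (Y := pw X (n + 1))

lemma str_step {D : Module.End W.K (W.H Y)} {δ : Module.End W.K (W.H X)}
    (h1 : ∀ x ∈ KOp W Y Y 0, str W Y (x * D) = 0) (h2 : ∀ x ∈ KOp W X X 0, str W X (x * δ) = 0)
    (hgr : ∀ i, ∀ x ∈ W.gr X i, δ x ∈ W.gr X i) :
    ∀ x ∈ KOp W (Y.prod X) (Y.prod X) 0,
      str W (Y.prod X) (x * (extOp W D 1 + extOp W 1 δ)) = 0 := by
  intro x hx
  obtain ⟨T, hT, h3⟩ := ptrace2 hx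
  obtain ⟨T', hT', h4⟩ := ptrace1 hx (kop_one Y)
  rw [mul_add, map_add, h3, h4 _ hgr, h1 T hT, h2 T' hT', add_zero]

/-- Orthogonality. -/
lemma str_dl (hC : C ∈ KOp W X X 0)
    (h : ∀ x ∈ KOp W X X 0, str W X (x * C) = str W X (x * dg W X)) (n : ℕ) :
    ∀ x ∈ KOp W (pw X (n + 1)) (pw X (n + 1)) 0,
      str W (pw X (n + 1)) (x * dl W (dg W X - C) n) = 0 := by
  have h0 : ∀ x ∈ KOp W X X 0, str W X (x * (dg W X - C)) = 0 := by
    intro x hx
    rw [mul_sub, map_sub, h x hx, sub_self]
  have hgr : ∀ i, ∀ x ∈ W.gr X i, (dg W X - C) x ∈ W.gr X i := fun i x hx => by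
    rw [LinearMap.sub_apply]
    exact Submodule.sub_mem _ (sc_gr _ i hx) (kop_gr hC i hx)
  induction n with
  | zero => exact h0
  | succ n ih => exact str_step (Y := pw X (n + 1)) ih h0 hgr

/-- The bound by the multiplicity of the eigenvalue zero. -/
lemma rank_le_dl (hC : C ∈ KOp W X X 0)
    (h : ∀ x ∈ KOp W X X 0, str W X (x * C) = str W X (x * dg W X)) (n : ℕ)
    {e : Module.End W.K (W.H (pw X (n + 1)))} (he : e * e = e) (heP : e ∈ KP W (pw X (n + 1))) :
    finrank W.K (LinearMap.range e) ≤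
      finrank W.K ((dl W (dg W X - C) n).maxGenEigenspace 0) := by
  obtain ⟨Cn, hCn, h1⟩ := dl_eq hC n
  apply rank_le_gen (KP W (pw X (n + 1))) he heP
  · intro a ha
    rw [h1, mul_sub]
    exact Submodule.sub_mem _ (kp_mul_sc ha _) (kp_mul ha hCn)
  · exact fun a ha => kp_mul ha (kp_kop heP)
  · exact fun a ha => trace_eq_str ha (str_dl hC h n)

lemma P_dl (L : Type*) [Field L] [Algebra W.K L] [IsAlgClosed L]
    (δ : Module.End W.K (W.H X)) (n : ℕ) :
    P (eigM L (dl W δ n)) = P (eigM L δ) ^ (n + 1) := by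
  induction n with
  | zero => exact (pow_one _).symm
  | succ n ih =>
    rw [pow_succ, ← ih, ← P_mulM, ← eigM_tensor]
    have h1 : dl W δ (n + 1) = (kappa W (pw X (n + 1)) X).conj
        (TensorProduct.map (dl W δ n) (1 : Module.End W.K (W.H X)) +
          TensorProduct.map (1 : Module.End W.K (W.H (pw X (n + 1)))) δ) := by
      rw [map_add]
      rfl
    rw [eigM, eigM, h1]
    have h2 := LinearEquiv.charpoly_conj (kappa W (pw X (n + 1)) X)
      (TensorProduct.map (dl W δ n) (1 : Module.End W.K (W.H X)) +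
          TensorProduct.map (1 : Module.End W.K (W.H (pw X (n + 1)))) δ)
    exact congrArg (fun p : Polynomial W.K => P ((p.aroots L).map Multiplicative.ofAdd)) h2

end delta

end Pool.Agent.Run7.H98.CX
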