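import Pool.Agent.Run7.h98.CX.Main

/-!
# A positive share suffices for the Kunneth standard conjecture
-/

set_option autoImplicit false

open CategoryTheory AlgebraicGeometry Finset TensorProduct Module Filter

universe u v

namespace Pool.Agent.Run7.H98.CX

open Pool.Agent.H914 VarClass Obj WeilCohomology Pool.Agent.N190.CB Pool.Agent.N103.OC
  Pool.Agent.N536.HK

variable {k : Type u} [Field k] {𝒱 : VarClass k} {ops : CycleOps 𝒱}
  {W : WeilCohomology.{u, v} ops} {X Y Z : 𝒱.Obj}

lemma span_cycleOps : Submodule.span W.K (cycleOps W X) = KOp W X X 0 := by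
  rw [KOp]
  congr 1
  ext φ
  constructor
  · rintro ⟨z, hz, rfl⟩
    exact ⟨X.dim, by simp, z, hz, rfl⟩
  · rintro ⟨p, hp, z, hz, rfl⟩
    obtain rfl : p = X.dim := by omega
    exact ⟨z, hz, rfl⟩

/-- The direct summands which satisfy the Kunneth standard conjecture. -/
lemma summand_iff {e : Module.End W.K (W.H X)} :
    KunnethSummand (W.gr X) (cycleOps W X) e ↔ e * e = e ∧ e ∈ KP W X := by
  unfold KunnethSummand
  rw [span_cycleOps]
  constructor
  · rintro ⟨h1, h2, h3⟩
    refine ⟨h2, fun c => ?_⟩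
    have h4 : ∀ i, proj (W.isInternal X) i * e ∈ KOp W X X 0 := by
      intro i
      obtain ⟨p, hp, hp'⟩ := h3 i
      have h5 : proj (W.isInternal X) i * e = p := by
        apply gr_ext (W.isInternal X)
        intro j x hx
        rw [Module.End.mul_apply, hp' j x hx]
        have hex : e x ∈ W.gr X j := kop_gr h1 j hx
        split_ifs with hji
        · subst hji
          exact proj_same _ hex
        · exact proj_ne _ hex hji
      rw [h5]
      exact hp
    show scal (W.isInternal X) c * e ∈ KOp W X X 0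
    rw [scal_eq_sum (W.isInternal X) W_hbd, Finset.sum_mul]
    refine Submodule.sum_mem _ fun i _ => ?_
    rw [smul_mul_assoc]
    exact Submodule.smul_mem _ _ (h4 i)
  · rintro ⟨h2, h3⟩
    refine ⟨kp_kop h3, h2, fun i => ⟨proj (W.isInternal X) i * e, h3 _, fun j x hx => ?_⟩⟩
    have hex : e x ∈ W.gr X j := kop_gr (kp_kop h3) j hx
    rw [Module.End.mul_apply]
    split_ifs with hji
    · subst hji
      exact proj_same _ hex
    · exact proj_ne _ hex hji

/-- The set of the ranks. -/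
lemma ranks_eq (W : WeilCohomology.{u, v} ops) (X : 𝒱.Obj) :
    {r | ∃ e : Module.End W.K (W.H X), KunnethSummand (W.gr X) (cycleOps W X) e ∧
      r = finrank W.K (LinearMap.range e)} =
    {r | ∃ e : Module.End W.K (W.H X), (e * e = e ∧ e ∈ KP W X) ∧
      r = finrank W.K (LinearMap.range e)} := by
  ext r
  simp only [Set.mem_setOf_eq, summand_iff]

lemma ranks_bdd (W : WeilCohomology.{u, v} ops) (X : 𝒱.Obj) :
    BddAbove {r | ∃ e : Module.End W.K (W.H X), (e * e = e ∧ e ∈ KP W X) ∧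
      r = finrank W.K (LinearMap.range e)} := by
  refine ⟨cohDim W X, ?_⟩
  rintro r ⟨e, -, rfl⟩
  exact Submodule.finrank_le _

/-- The maximum is attained. -/
lemma exists_max (W : WeilCohomology.{u, v} ops) (X : 𝒱.Obj) :
    ∃ e : Module.End W.K (W.H X), (e * e = e ∧ e ∈ KP W X) ∧
      kunnethDim W X = finrank W.K (LinearMap.range e) := by
  have h1 : kunnethDim W X ∈ {r | ∃ e : Module.End W.K (W.H X), (e * e = e ∧ e ∈ KP W X) ∧
      r = finrank W.K (LinearMap.range e)} := by
    rw [kunnethDim, ranks_eq]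
    exact Nat.sSup_mem ⟨_, 0, ⟨mul_zero _, Submodule.zero_mem _⟩, rfl⟩ (ranks_bdd W X)
  exact h1

lemma le_kunnethDim {e : Module.End W.K (W.H X)} (h1 : e * e = e) (h2 : e ∈ KP W X) :
    finrank W.K (LinearMap.range e) ≤ kunnethDim W X := by
  rw [kunnethDim, ranks_eq]
  exact le_csSup (ranks_bdd W X) ⟨e, ⟨h1, h2⟩, rfl⟩

lemma kunnethDim_le (W : WeilCohomology.{u, v} ops) (X : 𝒱.Obj) :
    kunnethDim W X ≤ cohDim W X := by
  obtain ⟨e, -, h⟩ := exists_max W X
  rw [h]
  exact Submodule.finrank_le _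

/-- **The bound for the powers.** -/
theorem boundLaw (W : WeilCohomology.{u, v} ops) : BoundLaw W := by
  intro X hX n hn
  obtain ⟨n, rfl⟩ := Nat.exists_eq_add_of_le' hn
  obtain ⟨e, he, h⟩ := exists_max W (pw X (n + 1))
  rw [h]
  exact rank_bound hX n he.1 he.2

/-- If the Kunneth standard conjecture is true, the summand is everything. -/
lemma kunnethDim_of_allSpan (h : AllSpan W X) : kunnethDim W X = cohDim W X := by
  apply le_antisymm (kunnethDim_le W X)
  have h1 : (1 : Module.End W.K (W.H X)) ∈ KP W X := fun c => by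
    rw [mul_one]
    show scal (W.isInternal X) c ∈ KOp W X X 0
    rw [scal_eq_sum (W.isInternal X) W_hbd]
    exact Submodule.sum_mem _ fun i _ => Submodule.smul_mem _ _ ((spanComponent_iff i).1 (h i))
  have h2 := le_kunnethDim (W := W) (X := X) (mul_one 1) h1
  have h3 : LinearMap.range (1 : Module.End W.K (W.H X)) = ⊤ := LinearMap.range_id
  rwa [h3, finrank_top] at h2

lemma allSpan_pw (h : AllSpan W X) (n : ℕ) : AllSpan W (pw X (n + 1)) := fun m =>
  (spanComponent_iff m).2 ((kop_class W).pw_proj (fun i => (spanComponent_iff i).1 (h i)) n m)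

lemma cohDim_prod (W : WeilCohomology.{u, v} ops) (Y X : 𝒱.Obj) :
    cohDim W (Y.prod X) = cohDim W Y * cohDim W X := by
  rw [cohDim, ← LinearEquiv.finrank_eq (kappa W Y X), finrank_tensorProduct]
  rfl

lemma cohDim_pw (W : WeilCohomology.{u, v} ops) (X : 𝒱.Obj) (n : ℕ) :
    cohDim W (pw X (n + 1)) = cohDim W X ^ (n + 1) := by
  induction n with
  | zero => exact (pow_one _).symm
  | succ n ih =>
    rw [pow_succ, ← ih]
    exact cohDim_prod W (pw X (n + 1)) X

/-- A variety without cohomology. -/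
lemma allSpan_of_zero (h : cohDim W X = 0) : AllSpan W X := by
  intro i
  rw [spanComponent_iff]
  show proj (W.isInternal X) i ∈ KOp W X X 0
  have h1 : ∀ x : W.H X, x = 0 := fun x => by
    have := Module.finrank_zero_iff.1 h
    exact Subsingleton.elim _ _
  have h2 : proj (W.isInternal X) i = 0 := LinearMap.ext fun x => h1 _
  rw [h2]
  exact Submodule.zero_mem _

/-- The consequence of a lower bound for the share. -/
lemma share_bound (hX : ¬ AllSpan W X) (n : ℕ) {c : ℝ} (hc : 0 ≤ c)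
    (h : c * cohDim W (pw X (n + 1)) ≤ kunnethDim W (pw X (n + 1))) :
    2 * ((n : ℝ) + 2) * c ^ 2 ≤ cohDim W X := by
  have h0 : 0 < cohDim W X := Nat.pos_of_ne_zero fun h0 => hX (allSpan_of_zero h0)
  have h1 := boundLaw W X hX (n + 1) (Nat.succ_pos n)
  have h2 : 2 * ((n : ℝ) + 1 + 1) * (kunnethDim W (pw X (n + 1)) : ℝ) ^ 2 ≤
      (cohDim W X : ℝ) ^ (2 * (n + 1) + 1) := by exact_mod_cast h1
  rw [cohDim_pw] at h
  push_cast at h
  have h3 : (0 : ℝ) < cohDim W X := by exact_mod_cast h0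
  have h4 : (c * (cohDim W X : ℝ) ^ (n + 1)) ^ 2 ≤ (kunnethDim W (pw X (n + 1)) : ℝ) ^ 2 :=
    pow_le_pow_left₀ (by positivity) h 2
  have h5 : 2 * ((n : ℝ) + 2) * c ^ 2 * ((cohDim W X : ℝ) ^ (n + 1)) ^ 2 ≤
      cohDim W X * ((cohDim W X : ℝ) ^ (n + 1)) ^ 2 := by
    calc 2 * ((n : ℝ) + 2) * c ^ 2 * ((cohDim W X : ℝ) ^ (n + 1)) ^ 2
        = 2 * ((n : ℝ) + 1 + 1) * (c * (cohDim W X : ℝ) ^ (n + 1)) ^ 2 := by ring
      _ ≤ 2 * ((n : ℝ) + 1 + 1) * (kunnethDim W (pw X (n + 1)) : ℝ) ^ 2 := by gcongr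
      _ ≤ (cohDim W X : ℝ) ^ (2 * (n + 1) + 1) := h2
      _ = cohDim W X * ((cohDim W X : ℝ) ^ (n + 1)) ^ 2 := by ring
  exact le_of_mul_le_mul_right h5 (by positivity)

/-- **A positive share suffices.** -/
theorem shareLaw (W : WeilCohomology.{u, v} ops) : ShareLaw W := by
  intro X
  constructor
  · intro hX
    refine ⟨1, one_pos, Eventually.frequently ?_⟩
    filter_upwards [eventually_ge_atTop 1] with n hn
    obtain ⟨n, rfl⟩ := Nat.exists_eq_add_of_le' hn
    rw [one_mul, kunnethDim_of_allSpan (allSpan_pw hX n)]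
  · rintro ⟨c, hc0, hf⟩
    by_contra hX
    obtain ⟨N, hN⟩ := exists_nat_gt ((cohDim W X : ℝ) / (2 * c ^ 2))
    obtain ⟨n, hn, hn2⟩ := (hf.and_eventually (eventually_ge_atTop (N + 1))).exists
    obtain ⟨n, rfl⟩ := Nat.exists_eq_add_of_le' (le_trans (Nat.le_add_left 1 N) hn2)
    have h2 := share_bound hX n hc0.le hn
    rw [div_lt_iff₀ (by positivity)] at hN
    have h3 : (N : ℝ) ≤ n := by
      have : N ≤ n := by omega
      exact_mod_cast this
    nlinarith [pow_pos hc0 2]

/-- **All varieties.** -/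
theorem allLaw (W : WeilCohomology.{u, v} ops) : AllLaw W := by
  constructor
  · intro h
    refine ⟨fun _ => 1, ⟨fun _ _ => one_pos, ?_⟩, fun Y => ?_⟩
    · simp only [one_mul]
      exact Real.tendsto_sqrt_atTop.comp Real.tendsto_log_atTop
    · rw [one_mul, kunnethDim_of_allSpan (h Y)]
  · rintro ⟨f, ⟨hf0, hf⟩, h⟩ X
    by_contra hX
    have hb0 : cohDim W X ≠ 0 := fun h2 => hX (allSpan_of_zero h2)
    have hb1 : (1 : ℝ) ≤ cohDim W X := by exact_mod_cast Nat.one_le_iff_ne_zero.2 hb0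
    have hdim : ∀ n, (cohDim W (pw X (n + 1)) : ℝ) = (cohDim W X : ℝ) ^ (n + 1) := fun n => by
      rw [cohDim_pw]
      push_cast
      rfl
    have hy : ∀ n, (1 : ℝ) ≤ cohDim W (pw X (n + 1)) := fun n => by
      rw [hdim]
      exact one_le_pow₀ hb1
    have h2 : ∀ n : ℕ, 2 * ((n : ℝ) + 2) * f (cohDim W (pw X (n + 1))) ^ 2 ≤ cohDim W X :=
      fun n => share_bound hX n (hf0 _ (hy n)).le (h _)
    have h3 : (1 : ℝ) < cohDim W X := by
      by_contra h3
      have h4 : (cohDim W X : ℝ) = 1 := le_antisymm (not_lt.1 h3) hb1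
      have h5 : ∀ n, (cohDim W (pw X (n + 1)) : ℝ) = 1 := fun n => by
        rw [hdim, h4, one_pow]
      obtain ⟨N, hN⟩ := exists_nat_gt (1 / (2 * f 1 ^ 2))
      have h6 := h2 N
      rw [h5, h4] at h6
      have h7 := hf0 1 le_rfl
      rw [div_lt_iff₀ (by positivity)] at hN
      nlinarith [pow_pos h7 2]
    have hlog : 0 < Real.log (cohDim W X) := Real.log_pos h3
    obtain ⟨y0, hy0⟩ := eventually_atTop.1 (hf.eventually_gt_atTop
      (√(cohDim W X * Real.log (cohDim W X))))
    obtain ⟨n, hn⟩ := pow_unbounded_of_one_lt y0 h3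
    have h4 : y0 ≤ cohDim W (pw X (n + 1)) := by
      rw [hdim]
      refine hn.le.trans ?_
      exact pow_le_pow_right₀ hb1 (Nat.le_succ n)
    have h5 := hy0 _ h4
    have h6 := h2 n
    set F := f (cohDim W (pw X (n + 1))) with hF
    have hF0 : 0 < F := hf0 _ (hy n)
    have h7 : Real.log (cohDim W (pw X (n + 1))) = (n + 1) * Real.log (cohDim W X) := by
      rw [hdim, Real.log_pow]
      push_cast
      ring
    rw [h7] at h5
    have h8 : cohDim W X * Real.log (cohDim W X) <
        F ^ 2 * ((n + 1) * Real.log (cohDim W X)) := by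
      have h9 := pow_lt_pow_left₀ h5 (Real.sqrt_nonneg _) two_ne_zero
      rw [Real.sq_sqrt (by positivity), mul_pow, Real.sq_sqrt (by positivity)] at h9
      exact h9
    have h9 : (cohDim W X : ℝ) < F ^ 2 * (n + 1) := by
      rw [← mul_assoc] at h8
      exact lt_of_mul_lt_mul_right h8 hlog.le
    nlinarith [pow_pos hF0 2]

end Pool.Agent.Run7.H98.CX
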