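import Pool.Agent.N536.HK.Lin

/-!
# Ranks of idempotents, and linear forms given by a trace form
-/

set_option autoImplicit false

open Polynomial Module

namespace Pool.Agent.Run7.H98.CX

open Pool.Agent.H914 Pool.Agent.N536.HK

variable {K : Type*} {V : Type*} [Field K] [CharZero K] [AddCommGroup V] [Module K V]
  [FiniteDimensional K V]

/-- The bound for the rank of an idempotent. -/
lemma rank_le_of_tr (P : Submodule K (Module.End K V)) {q e : Module.End K V} (he : e * e = e)
    (heP : e ∈ P) (h1 : ∀ a ∈ P, a * q ∈ P) (h2 : ∀ a ∈ P, a * e ∈ P)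
    (h3 : ∀ a ∈ P, LinearMap.trace K V (q * a) = 0) :
    finrank K (LinearMap.range e) ≤ finrank K (LinearMap.range (1 - q)) := by
  apply rank_le_of_nilpotent he
  apply isNilpotent_of_trace_pow
  intro r
  have hmem : ∀ r : ℕ, e * (q * e) ^ r ∈ P := by
    intro r
    induction r with
    | zero => rw [pow_zero, mul_one]; exact heP
    | succ r ih =>
      rw [pow_succ, ← mul_assoc, ← mul_assoc]
      exact h2 _ (h1 _ ih)
  rw [pow_succ', mul_assoc]
  exact h3 _ (hmem r)

/-- The bound by the multiplicity of the eigenvalue zero. -/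
lemma rank_le_gen (P : Submodule K (Module.End K V)) {D e : Module.End K V} (he : e * e = e)
    (heP : e ∈ P) (h1 : ∀ a ∈ P, a * D ∈ P) (h2 : ∀ a ∈ P, a * e ∈ P)
    (h3 : ∀ a ∈ P, LinearMap.trace K V (D * a) = 0) :
    finrank K (LinearMap.range e) ≤ finrank K (D.maxGenEigenspace 0) := by
  obtain ⟨w, k, hw0, hw, hkw, g, hg⟩ := exists_fitting D
  have hq : 1 - aeval D w = D * aeval D g := by
    have := congrArg (aeval D) hg
    rwa [map_sub, map_one, map_mul, aeval_X] at this
  have hpow : ∀ (r : ℕ), ∀ a ∈ P, a * D ^ r ∈ P := by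
    intro r
    induction r with
    | zero => intro a ha; rwa [pow_zero, mul_one]
    | succ r ih =>
      intro a ha
      rw [pow_succ, ← mul_assoc]
      exact h1 _ (ih a ha)
  have hpoly : ∀ (p : K[X]), ∀ a ∈ P, a * aeval D p ∈ P := by
    intro p
    induction p using Polynomial.induction_on' with
    | add p q hp hq =>
      intro a ha
      rw [map_add, mul_add]
      exact P.add_mem (hp a ha) (hq a ha)
    | monomial r b =>
      intro a ha
      rw [aeval_monomial, ← mul_assoc, ← Algebra.commutes, mul_assoc, ← Algebra.smul_def]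
      exact P.smul_mem _ (hpow r a ha)
  have hqP : ∀ a ∈ P, a * (1 - aeval D w) ∈ P := fun a ha => by
    rw [mul_sub, mul_one]
    exact P.sub_mem ha (hpoly w a ha)
  have hcomm : D * aeval D g = aeval D g * D := by
    have h4 : aeval D (X * g) = aeval D (g * X) := by rw [mul_comm]
    rwa [map_mul, map_mul, aeval_X] at h4
  have htr : ∀ a ∈ P, LinearMap.trace K V ((1 - aeval D w) * a) = 0 := by
    intro a ha
    rw [hq, hcomm, mul_assoc, LinearMap.trace_mul_comm, mul_assoc]
    exact h3 _ (hpoly g a ha)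
  have h4 := rank_le_of_tr P he heP hqP h2 htr
  rw [sub_sub_cancel] at h4
  refine h4.trans (Submodule.finrank_mono ?_)
  rintro _ ⟨x, rfl⟩
  rw [End.mem_maxGenEigenspace]
  exact ⟨k, by rw [zero_smul, sub_zero, ← Module.End.mul_apply, hkw, LinearMap.zero_apply]⟩

omit [CharZero K] in
/-- A linear form which vanishes on the radical of the form is represented by an element. -/
lemma exists_rep (A : Submodule K (Module.End K V)) (s φ : Module.End K V →ₗ[K] K)
    (h : ∀ x ∈ A, (∀ c ∈ A, s (x * c) = 0) → φ x = 0) :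
    ∃ c ∈ A, ∀ x ∈ A, s (x * c) = φ x := by
  let b := finBasis K A
  let L : Fin (finrank K A) → (A →ₗ[K] K) := fun i =>
    s ∘ₗ (LinearMap.mulRight K ((b i : A) : Module.End K V)) ∘ₗ A.subtype
  have h1 : φ ∘ₗ A.subtype ∈ Submodule.span K (Set.range L) := by
    apply mem_span_of_iInf_ker_le_ker
    intro x hx
    rw [LinearMap.mem_ker]
    apply h x.1 x.2
    intro c hc
    have h2 : (⟨c, hc⟩ : A) ∈ Submodule.span K (Set.range b) := by
      rw [b.span_eq]; trivial
    have h3 : ∀ y : A, y ∈ Submodule.span K (Set.range b) → s (x.1 * y.1) = 0 := by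
      intro y hy
      induction hy using Submodule.span_induction with
      | mem y hy =>
        obtain ⟨i, rfl⟩ := hy
        exact (Submodule.mem_iInf _).1 hx i
      | zero => rw [ZeroMemClass.coe_zero, mul_zero, map_zero]
      | add y z _ _ hy hz => rw [Submodule.coe_add, mul_add, map_add, hy, hz, add_zero]
      | smul r y _ hy => rw [Submodule.coe_smul, mul_smul_comm, map_smul, hy, smul_zero]
    exact h3 _ h2
  obtain ⟨c, hc⟩ := (Submodule.mem_span_range_iff_exists_fun K).1 h1
  refine ⟨∑ i, c i • (b i).1, A.sum_mem fun i _ => A.smul_mem _ (b i).2, fun x hx => ?_⟩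
  have h4 := congrArg (fun F : A →ₗ[K] K => F ⟨x, hx⟩) hc
  simp only [LinearMap.sum_apply, LinearMap.smul_apply] at h4
  rw [Finset.mul_sum, map_sum]
  refine Eq.trans (Finset.sum_congr rfl fun i _ => ?_) h4
  rw [mul_smul_comm, map_smul]
  rfl

/-- If the radical of the form contains no idempotents, then it consists of nilpotent elements. -/
lemma nilpotent_of_no_idem (A : Submodule K (Module.End K V)) (hA : ∀ a ∈ A, ∀ b ∈ A, a * b ∈ A)
    (s : Module.End K V →ₗ[K] K)
    (h : ∀ z ∈ A, z * z = z → (∀ c ∈ A, s (z * c) = 0) → z = 0) {x : Module.End K V} (hx : x ∈ A)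
    (hx' : ∀ c ∈ A, s (x * c) = 0) : IsNilpotent x := by
  let S : Submodule K (Module.End K V) :=
    { carrier := {x | x ∈ A ∧ ∀ c ∈ A, s (x * c) = 0}
      zero_mem' := ⟨A.zero_mem, fun c _ => by rw [zero_mul, map_zero]⟩
      add_mem' := fun {a b} ha hb => ⟨A.add_mem ha.1 hb.1, fun c hc => by
        rw [add_mul, map_add, ha.2 c hc, hb.2 c hc, add_zero]⟩
      smul_mem' := fun r a ha => ⟨A.smul_mem _ ha.1, fun c hc => by
        rw [smul_mul_assoc, map_smul, ha.2 c hc, smul_zero]⟩ }
  have hS : ∀ a ∈ S, ∀ b ∈ S, a * b ∈ S := fun a ha b hb => ⟨hA a ha.1 b hb.1, fun c hc => by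
    rw [mul_assoc]
    exact ha.2 _ (hA b hb.1 c hc)⟩
  obtain ⟨e, heS, he, hmax⟩ := exists_max_idem S hS
  have he0 : e = 0 := h e heS.1 he heS.2
  have hpow : ∀ r : ℕ, x ^ (r + 1) ∈ S := by
    intro r
    induction r with
    | zero => rw [zero_add, pow_one]; exact ⟨hx, hx'⟩
    | succ r ih => rw [pow_succ]; exact hS _ ih _ ⟨hx, hx'⟩
  apply isNilpotent_of_trace_pow
  intro r
  have h1 := hmax _ (hpow r)
  rwa [he0, sub_zero, one_mul] at h1

end Pool.Agent.Run7.H98.CX
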