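import Pool.Agent.Run7.h98.CX.Geo

/-!
# The bound for the direct summands which satisfy the Kunneth standard conjecture
-/

set_option autoImplicit false

open CategoryTheory AlgebraicGeometry Finset TensorProduct Module

universe u v

namespace Pool.Agent.Run7.H98.CX

open Pool.Agent.H914 VarClass Obj WeilCohomology Pool.Agent.N190.CB Pool.Agent.N103.OC
  Pool.Agent.N536.HK Pool.Agent.Run7.H634.WZ

variable {k : Type u} [Field k] {𝒱 : VarClass k} {ops : CycleOps 𝒱}
  {W : WeilCohomology.{u, v} ops} {X Y Z : 𝒱.Obj}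

/-! ### The nilpotent case -/

/-- A linear map without nonzero eigenvalues is nilpotent. -/
lemma nilpotent_of_eig {K V : Type*} [Field K] [AddCommGroup V] [Module K V]
    [FiniteDimensional K V] (L : Type*) [Field L] [Algebra K L] [IsAlgClosed L]
    (f : Module.End K V) (h : ∀ x ∈ eigM L f, x = 1) : IsNilpotent f := by
  rw [LinearMap.isNilpotent_iff_charpoly]
  have h1 : ∀ x ∈ f.charpoly.aroots L, x = 0 := by
    intro x hx
    exact Multiplicative.ofAdd.injective (h _ (Multiset.mem_map_of_mem _ hx))
  have h2 : f.charpoly.aroots L = Multiset.replicate (finrank K V) 0 := by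
    rw [Multiset.eq_replicate]
    exact ⟨by rw [IsAlgClosed.card_aroots_eq_natDegree, LinearMap.charpoly_natDegree], h1⟩
  have h3 : (f.charpoly.map (algebraMap K L)) = Polynomial.X ^ finrank K V := by
    have h4 := (IsAlgClosed.splits (f.charpoly.map (algebraMap K L))).eq_prod_roots_of_monic
      ((LinearMap.charpoly_monic f).map _)
    rw [h4]
    rw [Polynomial.aroots_def] at h2
    rw [h2]
    simp
  apply Polynomial.map_injective (algebraMap K L) (algebraMap K L).injective
  rw [h3, Polynomial.map_pow, Polynomial.map_X]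

/-- If the difference of the degree operator and a combination of correspondences is nilpotent, then
the Kunneth standard conjecture is true. -/
lemma allSpan_of_nilpotent {C : Module.End W.K (W.H X)} (hC : C ∈ KOp W X X 0)
    (h : IsNilpotent (dg W X - C)) : AllSpan W X := by
  obtain ⟨r, hr⟩ := h
  set δ := dg W X - C with hδ
  have hδgr : ∀ i, ∀ x ∈ W.gr X i, δ x ∈ W.gr X i := fun i x hx => by
    rw [hδ, LinearMap.sub_apply]
    exact Submodule.sub_mem _ (sc_gr _ i hx) (kop_gr hC i hx)
  intro i
  rw [spanComponent_iff]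
  show proj (W.isInternal X) i ∈ KOp W X X 0
  set T := C - (i : W.K) • 1 with hT
  have hTm : T ∈ KOp W X X 0 := Submodule.sub_mem _ hC (Submodule.smul_mem _ _ (kop_one X))
  obtain ⟨w, m, hw0, hw, hmw, g, hg⟩ := exists_fitting T
  have hpoly : ∀ p : Polynomial W.K, Polynomial.aeval T p ∈ KOp W X X 0 := by
    intro p
    induction p using Polynomial.induction_on' with
    | add p q hp hq => rw [map_add]; exact Submodule.add_mem _ hp hq
    | monomial s b =>
      rw [Polynomial.aeval_monomial, ← Algebra.smul_def]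
      apply Submodule.smul_mem
      induction s with
      | zero => rw [pow_zero]; exact kop_one X
      | succ s ih => rw [pow_succ]; exact kop_mul ih hTm
  have hq : 1 - Polynomial.aeval T w = T * Polynomial.aeval T g := by
    have := congrArg (Polynomial.aeval T) hg
    rwa [map_sub, map_one, map_mul, Polynomial.aeval_X] at this
  have hTj : ∀ j, ∀ x ∈ W.gr X j, T x = ((j : W.K) - i) • x - δ x := by
    intro j x hx
    have h1 : C x = (j : W.K) • x - δ x := by
      have h2 : dg W X x = (j : W.K) • x := scal_apply _ _ hx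
      rw [hδ, LinearMap.sub_apply, h2, sub_sub_cancel]
    rw [hT, LinearMap.sub_apply, LinearMap.smul_apply, Module.End.one_apply, h1, sub_smul]
    abel
  have hPi : Polynomial.aeval T w = proj (W.isInternal X) i := by
    apply gr_ext (W.isInternal X)
    intro j x hx
    by_cases hji : j = i
    · subst hji
      rw [proj_same _ hx]
      -- `T` is nilpotent in this degree
      have h1 : ∀ s : ℕ, (T ^ s) x = ((-1 : W.K) ^ s) • (δ ^ s) x ∧ (δ ^ s) x ∈ W.gr X j := by
        intro s
        induction s with
        | zero =>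
          rw [pow_zero, pow_zero, pow_zero, one_smul]
          exact ⟨rfl, hx⟩
        | succ s ih =>
          rw [pow_succ', pow_succ' δ, Module.End.mul_apply, Module.End.mul_apply, ih.1, map_smul,
            hTj j _ ih.2, sub_self, zero_smul, zero_sub, pow_succ, mul_neg_one, neg_smul, smul_neg]
          exact ⟨rfl, hδgr j _ ih.2⟩
      have h2 : (T ^ (r + 1)) x = 0 := by
        rw [(h1 _).1, pow_succ δ, hr, zero_mul, LinearMap.zero_apply, smul_zero]
      have h3 : (1 - Polynomial.aeval T w) * (1 - Polynomial.aeval T w) =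
          1 - Polynomial.aeval T w := idem_compl hw
      have h4 : ∀ s : ℕ, (1 - Polynomial.aeval T w) ^ (s + 1) = 1 - Polynomial.aeval T w := by
        intro s
        induction s with
        | zero => rw [zero_add, pow_one]
        | succ s ih => rw [pow_succ, ih, h3]
      have hcomm : Commute T (Polynomial.aeval T g) := by
        show T * Polynomial.aeval T g = Polynomial.aeval T g * T
        have h5 : Polynomial.aeval T (Polynomial.X * g) = Polynomial.aeval T (g * Polynomial.X) := by
          rw [mul_comm]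
        rwa [map_mul, map_mul, Polynomial.aeval_X] at h5
      have h5 : (1 - Polynomial.aeval T w) x = 0 := by
        rw [← h4 r, hq, hcomm.mul_pow, (hcomm.pow_pow (r + 1) (r + 1)).eq, Module.End.mul_apply, h2,
          map_zero]
      rw [LinearMap.sub_apply, Module.End.one_apply, sub_eq_zero] at h5
      exact h5.symm
    · rw [proj_ne _ hx hji]
      set y := Polynomial.aeval T w x with hy
      have hyj : y ∈ W.gr X j := kop_gr (hpoly w) j hx
      have h1 : (T ^ m) y = 0 := by
        rw [hy, ← Module.End.mul_apply, hmw, LinearMap.zero_apply]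
      set T' : Module.End W.K (W.H X) := ((j : W.K) - i) • 1 - δ with hT'
      have hunit : IsUnit T' := by
        have hc : ((j : W.K) - i) ≠ 0 := sub_ne_zero.2 (by exact_mod_cast hji)
        have h2 : IsUnit (((j : W.K) - i) • (1 : Module.End W.K (W.H X))) := by
          rw [← Algebra.algebraMap_eq_smul_one]
          exact (IsUnit.mk0 _ hc).map _
        have h3 : IsNilpotent (-δ) := by
          rw [isNilpotent_neg_iff]
          exact ⟨r, hr⟩
        rw [hT', sub_eq_add_neg]
        refine IsNilpotent.isUnit_add_left_of_commute h3 h2 ?_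
        rw [← Algebra.algebraMap_eq_smul_one]
        exact (Algebra.commutes _ _).symm
      have hTa : ∀ v, T' v = ((j : W.K) - i) • v - δ v := fun v => by
        rw [hT', LinearMap.sub_apply, LinearMap.smul_apply, Module.End.one_apply]
      have h2 : ∀ s : ℕ, (T ^ s) y = (T' ^ s) y ∧ (T' ^ s) y ∈ W.gr X j := by
        intro s
        induction s with
        | zero => exact ⟨rfl, hyj⟩
        | succ s ih =>
          rw [pow_succ', pow_succ', Module.End.mul_apply, Module.End.mul_apply, ih.1,
            hTj j _ ih.2, hTa]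
          exact ⟨rfl, Submodule.sub_mem _ (Submodule.smul_mem _ _ ih.2) (hδgr j _ ih.2)⟩
      rw [(h2 m).1] at h1
      have h3 : IsUnit (T' ^ m) := hunit.pow m
      rw [Module.End.isUnit_iff] at h3
      exact (map_eq_zero_iff _ h3.1).1 h1
  rw [← hPi]
  exact hpoly w

/-! ### The case of an idempotent which is orthogonal to all correspondences -/

/-- The powers of `1 - z`. -/
noncomputable def zp (W : WeilCohomology.{u, v} ops) {X : 𝒱.Obj} (z : Module.End W.K (W.H X)) :
    ∀ n : ℕ, Module.End W.K (W.H (pw X (n + 1)))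
  | 0 => (1 - z : Module.End W.K (W.H X))
  | n + 1 => extOp W (Y := pw X (n + 1)) (Z := X) (zp W z n) (1 - z)

lemma zp_mem {z : Module.End W.K (W.H X)} (hz : z ∈ KOp W X X 0) (n : ℕ) :
    zp W z n ∈ KOp W (pw X (n + 1)) (pw X (n + 1)) 0 := by
  have h0 : (1 - z) ∈ KOp W X X 0 := Submodule.sub_mem _ (kop_one X) hz
  induction n with
  | zero => exact h0
  | succ n ih => exact kop_ext (Y := pw X (n + 1)) ih h0

lemma zp_idem {z : Module.End W.K (W.H X)} (hz : z * z = z) (n : ℕ) :
    zp W z n * zp W z n = zp W z n := by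
  have h0 : (1 - z) * (1 - z) = 1 - z := idem_compl hz
  induction n with
  | zero => exact h0
  | succ n ih =>
    have h1 := extOp_mul (W := W) (Y := pw X (n + 1)) (Z := X) (zp W z n) (zp W z n) (1 - z) (1 - z)
    rw [ih, h0] at h1
    exact h1

lemma zp_rank {z : Module.End W.K (W.H X)} (hz : z * z = z) (n : ℕ) :
    finrank W.K (LinearMap.range (zp W z n)) =
      finrank W.K (LinearMap.range (1 - z)) ^ (n + 1) := by
  have h1 : LinearMap.trace W.K _ (zp W z n) =
      LinearMap.trace W.K (W.H X) (1 - z) ^ (n + 1) := by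
    induction n with
    | zero => exact (pow_one (LinearMap.trace W.K (W.H X) (1 - z))).symm
    | succ n ih =>
      rw [pow_succ, ← ih]
      exact trace_extOp (X := pw X (n + 1)) (Z := X) _ _
  rw [Pool.Agent.N536.HK.trace_idem (zp_idem hz n),
    Pool.Agent.N536.HK.trace_idem (idem_compl hz)] at h1
  exact_mod_cast h1

lemma str_zstep {D : Module.End W.K (W.H Y)} {z : Module.End W.K (W.H X)} (hD : D ∈ KOp W Y Y 0)
    (hz : z ∈ KOp W X X 0) (h1 : ∀ x ∈ KOp W Y Y 0, str W Y (x * (1 - D)) = 0)
    (h2 : ∀ x ∈ KOp W X X 0, str W X (x * z) = 0) :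
    ∀ x ∈ KOp W (Y.prod X) (Y.prod X) 0, str W (Y.prod X) (x * (1 - extOp W D (1 - z))) = 0 := by
  intro x hx
  obtain ⟨T, hT, h3⟩ := ptrace2 hx
  obtain ⟨T', hT', h4⟩ := ptrace1 hx hD
  have h5 : (1 : Module.End W.K (W.H (Y.prod X))) - extOp W D (1 - z) =
      extOp W (1 - D) 1 + extOp W D z := by
    have h6 : (1 : Module.End W.K (W.H (Y.prod X))) = extOp W (1 - D) 1 + extOp W D 1 := by
      rw [← extOp_add_left, sub_add_cancel, extOp_one]
    have h7 : extOp W D (1 : Module.End W.K (W.H X)) = extOp W D (1 - z) + extOp W D z := by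
      rw [← extOp_add_right, sub_add_cancel]
    rw [h6, h7]
    abel
  rw [h5, mul_add, map_add, h3, h4 _ (fun i x hx => kop_gr hz i hx), h1 T hT, h2 T' hT', add_zero]

/-- The bound if there is an idempotent which is orthogonal to all correspondences. -/
lemma rank_le_zp {z : Module.End W.K (W.H X)} (hz : z ∈ KOp W X X 0) (hzz : z * z = z)
    (h : ∀ c ∈ KOp W X X 0, str W X (z * c) = 0) (n : ℕ)
    {e : Module.End W.K (W.H (pw X (n + 1)))} (he : e * e = e) (heP : e ∈ KP W (pw X (n + 1))) :
    finrank W.K (LinearMap.range e) ≤ finrank W.K (LinearMap.range (1 - z)) ^ (n + 1) := by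
  have h' : ∀ x ∈ KOp W X X 0, str W X (x * z) = 0 := fun x hx => by
    rw [str_kop_comm hx]
    exact h x hx
  have hstr : ∀ n, ∀ x ∈ KOp W (pw X (n + 1)) (pw X (n + 1)) 0,
      str W (pw X (n + 1)) (x * (1 - zp W z n)) = 0 := by
    intro n
    induction n with
    | zero =>
      have h0 : ∀ x ∈ KOp W X X 0, str W X (x * (1 - (1 - z))) = 0 := fun x hx => by
        rw [sub_sub_cancel]
        exact h' x hx
      exact h0
    | succ n ih => exact str_zstep (Y := pw X (n + 1)) (zp_mem hz n) hz ih h'
  rw [← zp_rank hzz n]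
  have h1 := rank_le_of_tr (KP W (pw X (n + 1))) (q := 1 - zp W z n) he heP
    (fun a ha => kp_mul ha (Submodule.sub_mem _ (kop_one _) (zp_mem hz n)))
    (fun a ha => kp_mul ha (kp_kop heP)) (fun a ha => trace_eq_str ha (hstr n))
  rwa [sub_sub_cancel] at h1

/-! ### The bound -/

lemma pow_aux (x k : ℕ) : x ^ (k + 1) + (k + 1) * x ^ k ≤ (x + 1) ^ (k + 1) := by
  induction k with
  | zero => simp
  | succ k ih =>
    calc x ^ (k + 1 + 1) + (k + 1 + 1) * x ^ (k + 1)
        ≤ (x ^ (k + 1) + (k + 1) * x ^ k) * (x + 1) := by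
          have : x ^ (k + 1 + 1) + (k + 1 + 1) * x ^ (k + 1) + (k + 1) * x ^ k =
            (x ^ (k + 1) + (k + 1) * x ^ k) * (x + 1) := by ring
          omega
      _ ≤ (x + 1) ^ (k + 1) * (x + 1) := Nat.mul_le_mul_right _ ih
      _ = (x + 1) ^ (k + 1 + 1) := (pow_succ _ _).symm

/-- The inequality in the second case. -/
lemma pow_bound {x b m : ℕ} (hx : x + 1 ≤ b) (hm : 1 ≤ m) :
    2 * (m + 1) * (x ^ m) ^ 2 ≤ b ^ (2 * m + 1) := by
  rcases Nat.eq_zero_or_pos x with rfl | hx0
  · rw [zero_pow (by omega)]
    simp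
  · calc 2 * (m + 1) * (x ^ m) ^ 2 = x ^ (2 * m) + (2 * m + 1) * x ^ (2 * m) := by ring
      _ ≤ x ^ (2 * m + 1) + (2 * m + 1) * x ^ (2 * m) := by
        have := Nat.pow_le_pow_right hx0 (Nat.le_succ (2 * m))
        exact Nat.add_le_add_right this _
      _ ≤ (x + 1) ^ (2 * m + 1) := pow_aux x (2 * m)
      _ ≤ b ^ (2 * m + 1) := Nat.pow_le_pow_left hx _

/-- **The bound.** -/
theorem rank_bound (hX : ¬ AllSpan W X) (n : ℕ) {e : Module.End W.K (W.H (pw X (n + 1)))}
    (he : e * e = e) (heP : e ∈ KP W (pw X (n + 1))) :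
    2 * (n + 1 + 1) * finrank W.K (LinearMap.range e) ^ 2 ≤ cohDim W X ^ (2 * (n + 1) + 1) := by
  by_cases h : ∀ z ∈ KOp W X X 0, z * z = z → (∀ c ∈ KOp W X X 0, str W X (z * c) = 0) → z = 0
  · obtain ⟨C, hC, h1⟩ := exists_C h
    have h2 := rank_le_dl hC h1 n he heP
    have h3 := h2.trans (finrank_gen_zero (L := AlgebraicClosure W.K) _)
    rw [P_dl] at h3
    have h4 : ∃ x ∈ eigM (AlgebraicClosure W.K) (dg W X - C), x ≠ 1 := by
      by_contra hcon
      push Not at hcon
      exact hX (allSpan_of_nilpotent hC (nilpotent_of_eig (AlgebraicClosure W.K) _ hcon))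
    have h5 := walk_bound (Q := Multiplicative (AlgebraicClosure W.K)) (fun x r hr hx => by
      have h6 : (r : AlgebraicClosure W.K) * Multiplicative.toAdd x = 0 := by
        have h7 := congrArg Multiplicative.toAdd hx
        rwa [toAdd_pow, toAdd_one, nsmul_eq_mul] at h7
      have h7 : (r : AlgebraicClosure W.K) ≠ 0 := by exact_mod_cast hr.ne'
      exact Multiplicative.toAdd.injective ((mul_eq_zero.1 h6).resolve_left h7)) _ h4
      (Nat.succ_pos n)
    rw [card_eigM] at h5
    refine le_trans ?_ h5
    gcongr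
  · push Not at h
    obtain ⟨z, hz, hzz, hz', hz0⟩ := h
    have h1 := rank_le_zp hz hzz hz' n he heP
    have h2 : finrank W.K (LinearMap.range (1 - z)) + 1 ≤ cohDim W X := by
      have h3 : 1 ≤ finrank W.K (LinearMap.range z) := by
        rw [Nat.one_le_iff_ne_zero]
        intro h4
        exact hz0 (LinearMap.range_eq_bot.1 (Submodule.finrank_eq_zero.1 h4))
      have h4 : finrank W.K (LinearMap.range z) + finrank W.K (LinearMap.range (1 - z)) =
          finrank W.K (W.H X) := by
        have h5 : z * (1 - z) = 0 := by rw [mul_sub, hzz, mul_one, sub_self]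
        have h6 : (1 - z) * z = 0 := by rw [sub_mul, hzz, one_mul, sub_self]
        rw [← rank_add hzz (idem_compl hzz) h5 h6, add_sub_cancel]
        have h7 : LinearMap.range (1 : Module.End W.K (W.H X)) = ⊤ := LinearMap.range_id
        rw [h7, finrank_top]
      rw [cohDim]
      omega
    refine le_trans ?_ (pow_bound h2 (Nat.succ_pos n))
    gcongr

end Pool.Agent.Run7.H98.CX
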